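import Pool.Agent.helper90.FL.Spec

set_option autoImplicit false

namespace Pool.Agent.helper90.FL

open Finset Polynomial
open scoped Classical

theorem CIR_lp_mono {V E : Type} {s t : E → V} {B B' : Finset E} (hB : B ⊆ B') {e : E}
    (h : Lp s t B e) : Lp s t B' e := fun S hS => h S fun e' he' => hS e' (hB he')

theorem CIR_cl {V E : Type} {s t : E → V} {B : Finset E} {e : E} (h : Lp s t B e) (S : Set V) :
    Cl s t B S ↔ Cl s t (insert e B) S := by
  constructor
  · intro hS e' he'
    rcases Finset.mem_insert.1 he' with rfl | h'
    · exact h S hS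
    · exact hS e' h'
  · intro hS e' he'
    exact hS e' (Finset.mem_insert_of_mem he')

theorem CIR_aux (h : IDL_stmt) (V E : Type) (s t : E → V) (hR : Rel s t) (x : ℝ) (n : ℕ)
    (hn : ∀ A B : Finset E, A.card ≤ n → 0 ≤ Pv s t A B x) :
    ∀ (k : ℕ) (C A B : Finset E), C.card = k → C ⊆ A → A.card ≤ n + 1 → Cir s t B C →
      (x - C.card) * Pv s t (A \ C) (B ∪ C) x ≤ Pv s t A B x := by
  intro k
  induction k with
  | zero =>
    intro C A B hk _ _ hC
    exact absurd (Finset.card_eq_zero.1 hk) hC.1.ne_empty
  | succ k ih =>
    intro C A B hk hCA hA hC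
    obtain ⟨hne, hlp, hind⟩ := hC
    obtain ⟨e, he⟩ := hne
    have heA : e ∈ A := hCA he
    by_cases hk0 : k = 0
    · have hC1 : C = {e} := by
        obtain ⟨a, ha⟩ := Finset.card_eq_one.1 (by rw [hk, hk0] : C.card = 1)
        rw [ha] at he ⊢
        rw [Finset.mem_singleton.1 he]
      have hl : Lp s t B e := by
        have h1 := hlp e he
        rw [hC1] at h1
        have h2 : B ∪ ({e} : Finset E).erase e = B := by
          ext a
          simp
        rwa [h2] at h1
      have h1 := hR.loop A B e x heA hl
      have h2 := hR.cl (A.erase e) B (insert e B) x (fun S => CIR_cl hl S)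
      have h3 : A \ C = A.erase e := by
        rw [hC1]
        ext a
        simp [and_comm]
      have h4 : B ∪ C = insert e B := by
        rw [hC1]
        ext a
        simp [or_comm]
      rw [h3, h4, ← h2, h1, hC1]
      simp
    · have hCe : (C.erase e).card = k := by
        rw [Finset.card_erase_of_mem he, hk]
        rfl
      have hne' : (C.erase e).Nonempty := by
        rw [← Finset.card_pos, hCe]
        omega
      obtain ⟨e', he'⟩ := hne'
      have he'2 := Finset.mem_erase.1 he'
      have hnl : ¬ Lp s t B e := by
        intro hl
        have h1 : e ∈ C.erase e' := Finset.mem_erase.2 ⟨fun h => he'2.1 h.symm, he⟩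
        exact hind e' he'2.2 e h1 (CIR_lp_mono Finset.subset_union_left hl)
      have h1 := hR.nonloop A B e x heA hnl
      have hcirc : Cir s t (insert e B) (C.erase e) := by
        refine ⟨⟨e', he'⟩, ?_, ?_⟩
        · intro c hc
          have hc2 := Finset.mem_erase.1 hc
          have h2 : insert e B ∪ (C.erase e).erase c = B ∪ C.erase c := by
            ext a
            simp only [Finset.mem_union, Finset.mem_insert, Finset.mem_erase]
            constructor
            · rintro ((rfl | h) | ⟨h3, h4, h5⟩)
              · exact Or.inr ⟨fun h => hc2.1 h.symm, he⟩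
              · exact Or.inl h
              · exact Or.inr ⟨h3, h5⟩
            · rintro (h | ⟨h3, h4⟩)
              · exact Or.inl (Or.inr h)
              · by_cases hae : a = e
                · exact Or.inl (Or.inl hae)
                · exact Or.inr ⟨h3, hae, h4⟩
          rw [h2]
          exact hlp c hc2.2
        · intro c hc c' hc'
          have hc2 := Finset.mem_erase.1 hc
          have hc'2 := Finset.mem_erase.1 hc'
          have hc'3 := Finset.mem_erase.1 hc'2.2
          have h2 : insert e B ∪ ((C.erase e).erase c).erase c' = B ∪ (C.erase c).erase c' := by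
            ext a
            simp only [Finset.mem_union, Finset.mem_insert, Finset.mem_erase]
            constructor
            · rintro ((rfl | h) | ⟨h3, h4, h5, h6⟩)
              · exact Or.inr ⟨fun h => hc'3.1 h.symm, fun h => hc2.1 h.symm, he⟩
              · exact Or.inl h
              · exact Or.inr ⟨h3, h4, h6⟩
            · rintro (h | ⟨h3, h4, h5⟩)
              · exact Or.inl (Or.inr h)
              · by_cases hae : a = e
                · exact Or.inl (Or.inl hae)
                · exact Or.inr ⟨h3, h4, hae, h5⟩
          rw [h2]
          exact hind c hc2.2 c' (Finset.mem_erase.2 ⟨hc'2.1, hc'3.2⟩)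
      have hsub : C.erase e ⊆ A.erase e := Finset.erase_subset_erase e hCA
      have hcardA : (A.erase e).card ≤ n + 1 := (Finset.card_erase_le).trans hA
      have h3 := ih (C.erase e) (A.erase e) (insert e B) hCe hsub hcardA hcirc
      have h4 := h V E s t hR x n hn (C.erase e) (A.erase e) B hsub hcardA (hind e he)
      have h5 : A.erase e \ C.erase e = A \ C := by
        ext a
        simp only [Finset.mem_sdiff, Finset.mem_erase]
        constructor
        · rintro ⟨⟨h6, h7⟩, h8⟩
          exact ⟨h7, fun h9 => h8 ⟨h6, h9⟩⟩
        · rintro ⟨h6, h7⟩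
          exact ⟨⟨fun h9 => h7 (h9 ▸ he), h6⟩, fun h9 => h7 h9.2⟩
      have h6 : insert e B ∪ C.erase e = B ∪ C := by
        ext a
        simp only [Finset.mem_union, Finset.mem_insert, Finset.mem_erase]
        constructor
        · rintro ((rfl | h) | ⟨h3, h4⟩)
          · exact Or.inr he
          · exact Or.inl h
          · exact Or.inr h4
        · rintro (h | h)
          · exact Or.inl (Or.inr h)
          · by_cases hae : a = e
            · exact Or.inl (Or.inl hae)
            · exact Or.inr ⟨hae, h⟩
      have h7 : insert e (B ∪ C.erase e) = B ∪ C := by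
        rw [← h6, Finset.insert_union]
      have h8 := hR.cl (A \ C) (B ∪ C.erase e) (B ∪ C) x (fun S => by
        rw [← h7]
        exact CIR_cl (hlp e he) S)
      rw [h5, h6] at h3
      rw [h5, h8] at h4
      have h9 : ((C.erase e).card : ℝ) = (C.card : ℝ) - 1 := by
        rw [hCe, hk]
        push_cast
        ring
      rw [h9] at h3
      rw [h1]
      linarith [h3, h4]

theorem CIR (h : IDL_stmt) : CIR_stmt := by
  intro V E s t hR x n hn C A B hCA hA hC
  exact CIR_aux h V E s t hR x n hn C.card C A B rfl hCA hA hC

end Pool.Agent.helper90.FL
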